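import Pool.Agent.Helper44.TOT.Defs

/-!
# TOT-T0: log-masses
-/

set_option autoImplicit false

namespace Pool.Agent.Helper54.TOT

open Pool.Agent.Helper44.TOT Finset

/-- the primes of the dyadic block `J` -/
theorem fibre_le (b : ℕ → ℝ) (β : ℝ) (S : Finset ℕ) (hS : ∀ q ∈ S, q.Prime ∧ β ≤ b q) (J : ℕ)
    (hJ : 1 ≤ J) :
    ∑ q ∈ S with Nat.clog 2 q = J, (1 : ℝ) / q ≤
      2 / (2 : ℝ) ^ J * (blk (fun q => β ≤ b q) (2 ^ J) : ℝ) := by
  classical
  have hpow : (2 : ℕ) ^ J / 2 = 2 ^ (J - 1) := by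
    obtain ⟨k, rfl⟩ : ∃ k, J = k + 1 := ⟨J - 1, by omega⟩
    rw [pow_succ]
    simp
  have hmem : ∀ q ∈ S.filter (fun q => Nat.clog 2 q = J), 2 ^ (J - 1) < q ∧ q ≤ 2 ^ J := by
    intro q hq
    rw [mem_filter] at hq
    constructor
    · by_contra hcon
      push Not at hcon
      have h1 : Nat.clog 2 q ≤ J - 1 := (Nat.clog_le_iff_le_pow (by norm_num)).2 hcon
      omega
    · exact (Nat.clog_le_iff_le_pow (by norm_num)).1 hq.2.le
  have h1 : ∑ q ∈ S with Nat.clog 2 q = J, (1 : ℝ) / q ≤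
      ∑ q ∈ S with Nat.clog 2 q = J, 2 / (2 : ℝ) ^ J := by
    refine sum_le_sum fun q hq => ?_
    have h2 := (hmem q hq).1
    have h3 : (2 : ℝ) ^ J / 2 ≤ q := by
      have h4 : ((2 ^ (J - 1) : ℕ) : ℝ) ≤ q := by exact_mod_cast h2.le
      have h5 : (2 : ℝ) ^ J / 2 = ((2 ^ (J - 1) : ℕ) : ℝ) := by
        obtain ⟨k, rfl⟩ : ∃ k, J = k + 1 := ⟨J - 1, by omega⟩
        rw [Nat.add_sub_cancel, pow_succ]
        push_cast
        ring
      rw [h5]
      exact h4
    have h6 : (0 : ℝ) < (2 : ℝ) ^ J / 2 := by positivity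
    calc (1 : ℝ) / q ≤ 1 / ((2 : ℝ) ^ J / 2) := one_div_le_one_div_of_le h6 h3
      _ = 2 / (2 : ℝ) ^ J := by
        rw [one_div_div]
  refine h1.trans ?_
  rw [sum_const, nsmul_eq_mul, mul_comm]
  refine mul_le_mul_of_nonneg_left ?_ (by positivity)
  have h7 : (S.filter (fun q => Nat.clog 2 q = J)).card ≤ blk (fun q => β ≤ b q) (2 ^ J) := by
    unfold blk
    refine card_le_card fun q hq => ?_
    have h8 := hmem q hq
    rw [mem_filter] at hq
    rw [mem_filter, mem_Ioc, hpow]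
    exact ⟨h8, hS q hq.1⟩
  exact_mod_cast h7

/-- the general bound -/
theorem core {x a : ℕ} {C0 ρ ι uB : ℝ} {b : ℕ → ℝ} (hC : Cst a C0 ρ ι)
    (hT : Tail x a C0 ρ ι uB b) (L : ℝ) (hL : L * Real.log 2 = Real.log x) (hL0 : 100 ≤ L)
    (θ K : ℝ) (hθ : 0 ≤ θ) (hθL : θ * L + 1 < L) (hK : 0 ≤ K)
    (hKJ : ∀ J : ℕ, 1 ≤ J → (J : ℝ) ≤ θ * L + 1 →
      Real.exp (-(((1 - ι) * (ρ * Real.log (L / J))) ^ a)) ≤ K * (J / L))
    (β : ℝ) (S : Finset ℕ) (hβ : 0 < β)
    (hS : ∀ q ∈ S, q.Prime ∧ (x : ℝ) ^ uB ≤ q ∧ (q : ℝ) ≤ (x : ℝ) ^ θ ∧ β ≤ b q) :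
    ∑ q ∈ S, (1 : ℝ) / q ≤
      2 * C0 / Real.log 2 * Real.exp (-(((1 - ι) * β) ^ a)) * K * (θ + 1 / L) := by
  classical
  have hlog2 : 0 < Real.log 2 := Real.log_pos (by norm_num)
  have hLpos : 0 < L := by linarith
  have hlogx : 0 < Real.log x := by
    rw [← hL]
    positivity
  have hx1 : (1 : ℝ) < x := by
    by_contra hcon
    push Not at hcon
    have := Real.log_nonpos (Nat.cast_nonneg x) hcon
    linarith
  have hx0 : (0 : ℝ) < x := by linarith
  have hι : 0 < 1 - ι := by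
    have := hC.hι'
    linarith
  have hρ : 0 < ρ := by
    have := hC.hρ
    linarith
  have ha0 : a ≠ 0 := by
    have := hC.ha
    omega
  have hC0 : 0 < C0 := by
    have := hC.hC0
    linarith
  set I : Finset ℕ := S.image (Nat.clog 2) with hI
  have hIJ : ∀ J ∈ I, 1 ≤ J ∧ (J : ℝ) ≤ θ * L + 1 ∧ (x : ℝ) ^ uB ≤ ((2 ^ J : ℕ) : ℝ) := by
    intro J hJ
    obtain ⟨q, hq, rfl⟩ := mem_image.1 hJ
    obtain ⟨hqp, hq1, hq2, _⟩ := hS q hq
    have h2q : 2 ≤ q := hqp.two_le
    have hJ1 : 1 ≤ Nat.clog 2 q := Nat.clog_pos (by norm_num) h2q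
    refine ⟨hJ1, ?_, ?_⟩
    · have h3 : 2 ^ (Nat.clog 2 q - 1) < q := by
        by_contra hcon
        push Not at hcon
        have h4 : Nat.clog 2 q ≤ Nat.clog 2 q - 1 :=
          (Nat.clog_le_iff_le_pow (by norm_num)).2 hcon
        omega
      have h5 : ((2 : ℝ) ^ (Nat.clog 2 q - 1)) ≤ (x : ℝ) ^ θ := by
        have : ((2 ^ (Nat.clog 2 q - 1) : ℕ) : ℝ) ≤ q := by exact_mod_cast h3.le
        push_cast at this
        exact this.trans hq2
      have h6 := Real.log_le_log (by positivity) h5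
      rw [Real.log_pow, Real.log_rpow hx0, ← hL] at h6
      have h7 : ((Nat.clog 2 q - 1 : ℕ) : ℝ) ≤ θ * L := by
        by_contra hcon
        push Not at hcon
        have := mul_lt_mul_of_pos_right hcon hlog2
        linarith
      have h8 : ((Nat.clog 2 q : ℕ) : ℝ) = ((Nat.clog 2 q - 1 : ℕ) : ℝ) + 1 := by
        rw [Nat.cast_sub hJ1]
        simp
      rw [h8]
      linarith
    · refine hq1.trans ?_
      exact_mod_cast Nat.le_pow_clog (by norm_num) q
  have hterm : ∀ J ∈ I, ∑ q ∈ S with Nat.clog 2 q = J, (1 : ℝ) / q ≤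
      2 * C0 / Real.log 2 * Real.exp (-(((1 - ι) * β) ^ a)) * K / L := by
    intro J hJ
    obtain ⟨hJ1, hJ2, hJ3⟩ := hIJ J hJ
    have hJpos : (0 : ℝ) < J := by exact_mod_cast hJ1
    have hJL : (J : ℝ) < L := by linarith
    have hpowlt : ((2 ^ J : ℕ) : ℝ) < x := by
      have h1 : Real.log ((2 ^ J : ℕ) : ℝ) < Real.log x := by
        push_cast
        rw [Real.log_pow, ← hL]
        exact mul_lt_mul_of_pos_right hJL hlog2
      exact (Real.log_lt_log_iff (by positivity) hx0).1 h1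
    have hpowlt' : (2 ^ J : ℕ) < x := by exact_mod_cast hpowlt
    have ht1 := hT.t1 (2 ^ J) β hJ3 hpowlt' hβ
    have hlogJ : Real.log ((2 ^ J : ℕ) : ℝ) = J * Real.log 2 := by
      push_cast
      rw [Real.log_pow]
    rw [hlogJ] at ht1
    have hratio : Real.log x / (J * Real.log 2) = L / J := by
      rw [← hL]
      field_simp
    rw [hratio] at ht1
    have hlagnn : 0 ≤ Real.log (L / J) := by
      refine Real.log_nonneg ?_
      rw [le_div_iff₀ hJpos]
      linarith
    have hsup : ((1 - ι) * β) ^ a + ((1 - ι) * (ρ * Real.log (L / J))) ^ a ≤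
        ((1 - ι) * (β + ρ * Real.log (L / J))) ^ a := by
      rw [mul_add]
      exact pow_add_pow_le (by positivity) (by positivity) ha0
    have hexp : Real.exp (-(((1 - ι) * (β + ρ * Real.log (L / J))) ^ a)) ≤
        Real.exp (-(((1 - ι) * β) ^ a)) * (K * (J / L)) := by
      calc Real.exp (-(((1 - ι) * (β + ρ * Real.log (L / J))) ^ a)) ≤
          Real.exp (-(((1 - ι) * β) ^ a) + -(((1 - ι) * (ρ * Real.log (L / J))) ^ a)) := by
            rw [Real.exp_le_exp]
            linarith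
        _ = Real.exp (-(((1 - ι) * β) ^ a)) *
            Real.exp (-(((1 - ι) * (ρ * Real.log (L / J))) ^ a)) := Real.exp_add _ _
        _ ≤ _ := mul_le_mul_of_nonneg_left (hKJ J hJ1 hJ2) (Real.exp_pos _).le
    refine (fibre_le b β S (fun q hq => ⟨(hS q hq).1, (hS q hq).2.2.2⟩) J hJ1).trans ?_
    have h2J : (0 : ℝ) < (2 : ℝ) ^ J := by positivity
    calc 2 / (2 : ℝ) ^ J * (blk (fun q => β ≤ b q) (2 ^ J) : ℝ)
        ≤ 2 / (2 : ℝ) ^ J * (C0 * (Real.exp (-(((1 - ι) * β) ^ a)) * (K * (J / L))) *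
            (((2 ^ J : ℕ) : ℝ) / (J * Real.log 2))) := by
          refine mul_le_mul_of_nonneg_left (ht1.trans ?_) (by positivity)
          refine mul_le_mul_of_nonneg_right ?_ (by positivity)
          exact mul_le_mul_of_nonneg_left hexp hC0.le
      _ = 2 * C0 / Real.log 2 * Real.exp (-(((1 - ι) * β) ^ a)) * K / L := by
          push_cast
          field_simp
  have hcard : (I.card : ℝ) ≤ θ * L + 1 := by
    have h1 : I ⊆ Finset.Icc 1 ⌊θ * L + 1⌋₊ := by
      intro J hJ
      obtain ⟨hJ1, hJ2, _⟩ := hIJ J hJ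
      rw [mem_Icc]
      exact ⟨hJ1, Nat.le_floor hJ2⟩
    have h2 := card_le_card h1
    rw [Nat.card_Icc, Nat.add_sub_cancel] at h2
    have h3 : (I.card : ℝ) ≤ (⌊θ * L + 1⌋₊ : ℝ) := by exact_mod_cast h2
    exact h3.trans (Nat.floor_le (by positivity))
  have hsplit : ∑ q ∈ S, (1 : ℝ) / q =
      ∑ J ∈ I, ∑ q ∈ S with Nat.clog 2 q = J, (1 : ℝ) / q := by
    rw [hI]
    exact (sum_fiberwise_of_maps_to (fun q hq => mem_image_of_mem _ hq) _).symm
  rw [hsplit]
  refine (sum_le_sum hterm).trans ?_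
  rw [sum_const, nsmul_eq_mul]
  have hpos : 0 ≤ 2 * C0 / Real.log 2 * Real.exp (-(((1 - ι) * β) ^ a)) * K / L := by
    positivity
  calc (I.card : ℝ) * (2 * C0 / Real.log 2 * Real.exp (-(((1 - ι) * β) ^ a)) * K / L)
      ≤ (θ * L + 1) * (2 * C0 / Real.log 2 * Real.exp (-(((1 - ι) * β) ^ a)) * K / L) :=
        mul_le_mul_of_nonneg_right hcard hpos
    _ = _ := by
      field_simp

theorem lM : LM := by
  intro a C0 ρ ι hC A
  refine ⟨2 ^ 100, ?_⟩
  intro x uB b hx _ hT β S hβ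
  have hlog2 : 0 < Real.log 2 := Real.log_pos (by norm_num)
  have hlog2' : 0.6931 < Real.log 2 := by
    have := Real.log_two_gt_d9
    linarith
  set L : ℝ := Real.log x / Real.log 2 with hLdef
  have hL : L * Real.log 2 = Real.log x := by
    rw [hLdef]
    field_simp
  have hL0 : 100 ≤ L := by
    rw [hLdef, le_div_iff₀ hlog2]
    have h1 : (2 : ℝ) ^ (100 : ℕ) ≤ x := by exact_mod_cast hx
    have h2 := Real.log_le_log (by positivity) h1
    rw [Real.log_pow] at h2
    exact_mod_cast h2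
  have hLpos : 0 < L := by linarith
  have hι : 19 / 20 ≤ 1 - ι := by
    have := hC.hι'
    linarith
  have hρ := hC.hρ
  have ha := hC.ha
  have hC0 : 0 < C0 := by
    have := hC.hC0
    linarith
  have he : Real.exp 1 < 2.7182818286 := Real.exp_one_lt_d9
  have h1L : 1 / L ≤ 1 / 100 := one_div_le_one_div_of_le (by norm_num) hL0
  have hexpJ : ∀ J : ℕ, 1 ≤ J → (J : ℝ) / L = Real.exp (-Real.log (L / J)) := by
    intro J hJ
    have hJpos : (0 : ℝ) < J := by exact_mod_cast hJ
    rw [Real.exp_neg, Real.exp_log (by positivity), inv_div]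
  constructor
  · intro hS
    have hmain := core hC hT L hL hL0 (1 / 2) (Real.exp 2 * Real.exp (-((ρ / 2) ^ a)))
      (by norm_num) (by linarith) (by positivity) ?_ β S hβ hS
    · refine hmain.trans ?_
      have hE : Real.exp (-(((1 - ι) * β) ^ a) - (ρ / 2) ^ a) =
          Real.exp (-(((1 - ι) * β) ^ a)) * Real.exp (-((ρ / 2) ^ a)) := by
        rw [← Real.exp_add]
        ring_nf
      rw [hE]
      have he2 : Real.exp 2 ≤ 7.39 := by
        have h3 : Real.exp 2 = Real.exp 1 * Real.exp 1 := by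
          rw [← Real.exp_add]
          norm_num
        rw [h3]
        have h4 := Real.exp_pos 1
        nlinarith
      have hconst : 2 / Real.log 2 * Real.exp 2 * (1 / 2 + 1 / L) ≤ 16 := by
        have h5 : 2 / Real.log 2 ≤ 2.886 := by
          rw [div_le_iff₀ hlog2]
          linarith
        have h6 : 2 / Real.log 2 * Real.exp 2 ≤ 2.886 * 7.39 :=
          mul_le_mul h5 he2 (Real.exp_pos _).le (by norm_num)
        have h7 : 1 / 2 + 1 / L ≤ 0.51 := by linarith
        have h8 : 2 / Real.log 2 * Real.exp 2 * (1 / 2 + 1 / L) ≤ 2.886 * 7.39 * 0.51 :=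
          mul_le_mul h6 h7 (by positivity) (by norm_num)
        refine h8.trans (by norm_num)
      have hEpos : 0 ≤ C0 * (Real.exp (-(((1 - ι) * β) ^ a)) * Real.exp (-((ρ / 2) ^ a))) := by
        positivity
      calc 2 * C0 / Real.log 2 * Real.exp (-(((1 - ι) * β) ^ a)) *
            (Real.exp 2 * Real.exp (-((ρ / 2) ^ a))) * (1 / 2 + 1 / L)
          = (2 / Real.log 2 * Real.exp 2 * (1 / 2 + 1 / L)) *
            (C0 * (Real.exp (-(((1 - ι) * β) ^ a)) * Real.exp (-((ρ / 2) ^ a)))) := by ring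
        _ ≤ 16 * (C0 * (Real.exp (-(((1 - ι) * β) ^ a)) * Real.exp (-((ρ / 2) ^ a)))) :=
            mul_le_mul_of_nonneg_right hconst hEpos
        _ = _ := by ring
    · intro J hJ hJ2
      have hJpos : (0 : ℝ) < J := by exact_mod_cast hJ
      rw [hexpJ J hJ, ← Real.exp_add, ← Real.exp_add, Real.exp_le_exp]
      set t : ℝ := Real.log (L / J) with ht
      -- 19/10 t ≥ 1
      have ht1 : 1 ≤ 1.9 * t := by
        have h3 : Real.exp (1 / 1.9) ≤ L / J := by
          have h4 : Real.exp (1 / 1.9) ≤ 1.8 := by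
            have h5 : Real.exp (1 / 1.9) = Real.exp (1 / 1.9) := rfl
            have h6 : Real.exp (1 / 1.9) ^ 19 = Real.exp 1 ^ 10 := by
              rw [← Real.exp_nat_mul, ← Real.exp_nat_mul]
              norm_num
            have h7 : Real.exp 1 ^ 10 ≤ (1.8 : ℝ) ^ 19 := by
              have h8 : Real.exp 1 ^ 10 ≤ (2.7182818286 : ℝ) ^ 10 :=
                pow_le_pow_left₀ (Real.exp_pos 1).le he.le 10
              refine h8.trans (by norm_num)
            rw [← h6] at h7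
            exact le_of_pow_le_pow_left₀ (by norm_num) (by norm_num) h7
          refine h4.trans ?_
          rw [le_div_iff₀ hJpos]
          nlinarith
        have h9 := Real.log_le_log (Real.exp_pos _) h3
        rw [Real.log_exp] at h9
        rw [← ht] at h9
        have h10 : (1 : ℝ) / 1.9 * 1.9 ≤ t * 1.9 := mul_le_mul_of_nonneg_right h9 (by norm_num)
        norm_num at h10 ⊢
        linarith
      have htpos : 0 < t := by nlinarith
      have hρ2 : 1 ≤ (ρ / 2) := by linarith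
      have hρa : 1 ≤ (ρ / 2) ^ a := one_le_pow₀ hρ2
      have hbase : (ρ / 2) * (1.9 * t) ≤ (1 - ι) * (ρ * t) := by
        have h11 : 19 / 20 * (ρ * t) ≤ (1 - ι) * (ρ * t) :=
          mul_le_mul_of_nonneg_right hι (by positivity)
        nlinarith
      have hpow : ((ρ / 2) * (1.9 * t)) ^ a ≤ ((1 - ι) * (ρ * t)) ^ a :=
        pow_le_pow_left₀ (by positivity) hbase a
      have hbern : 1 + (a : ℝ) * (1.9 * t - 1) ≤ (1.9 * t) ^ a := by
        have h12 := one_add_mul_le_pow (a := 1.9 * t - 1) (by linarith) a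
        have h13 : 1 + (1.9 * t - 1) = 1.9 * t := by ring
        rw [h13] at h12
        exact h12
      have ha2 : (2 : ℝ) ≤ a := by exact_mod_cast ha
      have h14 : 1 + 2 * (1.9 * t - 1) ≤ (1.9 * t) ^ a := by
        have : 2 * (1.9 * t - 1) ≤ (a : ℝ) * (1.9 * t - 1) :=
          mul_le_mul_of_nonneg_right ha2 (by linarith)
        linarith
      have h15 : (ρ / 2) ^ a * (1 + 2 * (1.9 * t - 1)) ≤ ((ρ / 2) * (1.9 * t)) ^ a := by
        rw [mul_pow]
        exact mul_le_mul_of_nonneg_left h14 (by linarith)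
      have h16 : (ρ / 2) ^ a + 2 * (1.9 * t - 1) ≤ (ρ / 2) ^ a * (1 + 2 * (1.9 * t - 1)) := by
        nlinarith
      linarith
  · intro hS
    have hmain := core hC hT L hL hL0 (9 / 10) (Real.exp 1) (by norm_num) (by linarith)
      (Real.exp_pos _).le ?_ β S hβ hS
    · refine hmain.trans ?_
      have hconst : 2 / Real.log 2 * Real.exp 1 * (9 / 10 + 1 / L) ≤ 16 := by
        have h5 : 2 / Real.log 2 ≤ 2.886 := by
          rw [div_le_iff₀ hlog2]
          linarith
        have h6 : 2 / Real.log 2 * Real.exp 1 ≤ 2.886 * 2.72 :=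
          mul_le_mul h5 (by linarith) (Real.exp_pos _).le (by norm_num)
        have h7 : 9 / 10 + 1 / L ≤ 0.91 := by linarith
        have h8 : 2 / Real.log 2 * Real.exp 1 * (9 / 10 + 1 / L) ≤ 2.886 * 2.72 * 0.91 :=
          mul_le_mul h6 h7 (by positivity) (by norm_num)
        refine h8.trans (by norm_num)
      have hEpos : 0 ≤ C0 * Real.exp (-(((1 - ι) * β) ^ a)) := by positivity
      calc 2 * C0 / Real.log 2 * Real.exp (-(((1 - ι) * β) ^ a)) * Real.exp 1 *
            (9 / 10 + 1 / L)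
          = (2 / Real.log 2 * Real.exp 1 * (9 / 10 + 1 / L)) *
            (C0 * Real.exp (-(((1 - ι) * β) ^ a))) := by ring
        _ ≤ 16 * (C0 * Real.exp (-(((1 - ι) * β) ^ a))) :=
            mul_le_mul_of_nonneg_right hconst hEpos
        _ = _ := by ring
    · intro J hJ hJ2
      have hJpos : (0 : ℝ) < J := by exact_mod_cast hJ
      rw [hexpJ J hJ, ← Real.exp_add, Real.exp_le_exp]
      set t : ℝ := Real.log (L / J) with ht
      have htnn : 0 ≤ t := by
        refine Real.log_nonneg ?_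
        rw [le_div_iff₀ hJpos]
        linarith
      have hw : t ≤ (1 - ι) * (ρ * t) := by
        have h11 : 19 / 20 * (ρ * t) ≤ (1 - ι) * (ρ * t) :=
          mul_le_mul_of_nonneg_right hι (by positivity)
        nlinarith
      have hwa : t - 1 ≤ ((1 - ι) * (ρ * t)) ^ a := by
        by_cases h1 : 1 ≤ (1 - ι) * (ρ * t)
        · have h2 : (1 - ι) * (ρ * t) ≤ ((1 - ι) * (ρ * t)) ^ a :=
            le_self_pow₀ h1 (by omega)
          linarith
        · push Not at h1
          have h2 : 0 ≤ ((1 - ι) * (ρ * t)) ^ a := pow_nonneg (by linarith) a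
          linarith
      linarith

end Pool.Agent.Helper54.TOT
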